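import Mathlib
import Pool.Agent.H.MP_913bbb_co.A

namespace Pool.Agent.Results.MP_913bbb_co.Const

open Pool.Agent.H.MP_913bbb_co

/-- Highly irregular: distinct neighbours of a vertex have different degrees. -/
def HI {V : Type} (G : SimpleGraph V) : Prop :=
  ∀ v a b, G.Adj v a → G.Adj v b → a ≠ b → (G.neighborSet a).ncard ≠ (G.neighborSet b).ncard

theorem result :
    (∀ (V : Type) [Fintype V] (G : SimpleGraph V), G.IsTree → HI G → 2 ≤ Fintype.card V →
      127 * G.indepNum + 22 ≤ 79 * Fintype.card V) ∧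
    (∃ (V : Type) (_ : Fintype V) (G : SimpleGraph V), G.IsTree ∧ HI G ∧
      Fintype.card V = 26 ∧ G.indepNum = 16) ∧
    (∀ j : ℕ, ∃ (V : Type) (_ : Fintype V) (G : SimpleGraph V), G.IsTree ∧ HI G ∧
      Fintype.card V = 100 + 254 * j ∧ G.indepNum = 62 + 158 * j) ∧
    IsLUB {x : ℝ | ∃ (V : Type) (_ : Fintype V) (G : SimpleGraph V), G.IsTree ∧ HI G ∧
      2 ≤ Fintype.card V ∧ x = (G.indepNum : ℝ) / (Fintype.card V : ℝ)} (79 / 127) := by
  have hf : ∀ j : ℕ, ∃ (V : Type) (_ : Fintype V) (G : SimpleGraph V), G.IsTree ∧ HI G ∧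
      Fintype.card V = 100 + 254 * j ∧ G.indepNum = 62 + 158 * j := by
    intro j
    obtain ⟨V, _, G, h1, h2, h3, h4⟩ := fin (fam j) (by decide)
    have := upper h1 h2 (by omega)
    exact ⟨V, inferInstance, G, h1, h2, h3, by omega⟩
  refine ⟨fun V _ G h1 h2 h3 => upper h1 h2 h3, ?_, hf, ?_, ?_⟩
  · obtain ⟨V, _, G, h1, h2, h3, h4⟩ := fin r26 (by decide)
    have := upper h1 h2 (by omega)
    exact ⟨V, inferInstance, G, h1, h2, h3, by omega⟩
  · rintro x ⟨V, _, G, h1, h2, h3, rfl⟩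
    have h4 : (127 * G.indepNum + 22 : ℝ) ≤ 79 * Fintype.card V := by
      exact_mod_cast upper h1 h2 h3
    have h5 : (0 : ℝ) < Fintype.card V := by
      exact_mod_cast (by omega : 0 < Fintype.card V)
    rw [div_le_div_iff₀ h5 (by norm_num)]
    linarith
  · intro b hb
    by_contra hlt
    push Not at hlt
    obtain ⟨j, hj⟩ := exists_nat_gt (1 / (79 / 127 - b))
    obtain ⟨V, _, G, h1, h2, h3, h4⟩ := hf j
    have h5 := hb ⟨V, inferInstance, G, h1, h2, by omega, rfl⟩
    rw [h3, h4] at h5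
    have hj0 : (0 : ℝ) ≤ j := Nat.cast_nonneg j
    push_cast at h5
    rw [div_le_iff₀ (by positivity)] at h5
    rw [div_lt_iff₀ (by linarith)] at hj
    nlinarith

end Pool.Agent.Results.MP_913bbb_co.Const
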